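import Mathlib
import Pool.Agent.H692.FL.Equation

/-!
# Linear equations in three variables and linear decision trees with five terms

The model is the linear decision tree: the input is a sequence of `n` numbers, a query computes an
affine form `∑ i, q i * x i + r` and the tree branches according to its sign (negative, zero,
positive).  The tree depends on `n` (it is non-uniform), everything but the queries is free.  The
known algorithms for 3SUM that are faster than the schoolbook method are of this kind: Grønlund and
Pettie use trees of depth `n^(3/2)` times a logarithmic factor whose queries have four terms (they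
compare `a + b` with `c + d`), and Kane, Lovett and Moran trees of depth `O(n log² n)` whose queries
have six terms with the coefficients `1` and `-1` (they compare `a + b + c` with `a' + b' + c'`).

Let `a`, `b`, `d` be non-zero integers, of absolute value at most `G`.  We show that six terms are
necessary for a bound like the last one.  Every randomised family of trees whose queries have at
most four terms with arbitrary real coefficients or at most five terms with integer coefficients
of absolute value at most `exp (c * √(log n)) / G ^ 2`, and which decides on sorted inputs with
error at most `1/3` whether `a x + b y + d z = 0` has a solution with three different numbers of the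
sequence, needs `n * exp (c * √(log n))` queries in expectation on some input without solution; the
constants `c > 0` and `n₀` do not depend on the equation.  For `a = b = d = 1` this is integer 3SUM,
for `a = b = 1`, `d = -2` the equation of the progressions with three terms, and for `a = b = 1`,
`d = -1` the variant `x + y = z` of 3SUM.

Definitions (file `Pool.Agent.H692.FL.Model`): `Tree ι`, `Tree.run`, `Tree.cost`: linear decision
trees, the answer and the number of queries on an input; `Adm H q`: at most four of the
coefficients `q i` are not zero, or at most five, and then all coefficients are integers of absolute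
value at most `H`; `Tree.FiveTerm H`: the coefficients of all queries are admissible in this sense.

## Proof idea

The numbers are the edges of a two-dimensional complex whose edges have three types.  For an input
without solution all the triangles of the complex have a small non-zero weight
`a x + b y + d z`.  A form which does not vanish on all the inputs with weights zero is dominated by
a generic such input.  The complex is built from the cosets of small subgroups of a finite group of
unipotent matrices over a field with `Q` elements in such a way that its closed walks of length at
most five come from triangles; so the forms with at most five terms that vanish on all the inputs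
with weights zero are the multiples of the weight of one triangle, the combinations of the weights
of two triangles with a common edge, and the multiples of `V t - V t' + V t''` for three triangles
such that `t`, `t'` and `t'`, `t''` have different common edges.  Every edge has many triangles
(`2 ^ s` on the average, after passing to a random subset of the points, chosen to destroy nearly
all short closed galleries).  For a triangle `m` without short closed galleries there is an input
`y m` with solution `m` that arises from the input `x` by spreading the correction of the weight of
`m` over the galleries that start at `m`, with one half of the weight at each step, so that at most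
the part `2 ^ (-k)` arrives at the triangles at distance `k + 1` and nothing at the others.  The
weights of the triangles at `x` are integers of size `2 ^ O(s)`, chosen so that the forms above with
coefficients up to `2 ^ s` do not vanish; so all these forms have the same sign at `x` and at `y m`,
except if `m` is one of the at most three triangles of the form.  So a query separates `x` from at
most three of the inputs `y m`, while there are `n * 2 ^ s / O(1)` triangles `m`.
-/

namespace Pool.Agent.Results.MP_8f87b2_lc.FiveTermTrees

open Pool.Agent.H692.FL

/-- `a x + b y + d z = 0` has a solution with three different members of the sequence -/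
def Solvable (a b d : ℤ) {n : ℕ} (x : Fin n → ℤ) : Prop :=
  ∃ i j k : Fin n, i ≠ j ∧ i ≠ k ∧ j ≠ k ∧ a * x i + b * x j + d * x k = 0

open Classical in
/-- There are a constant `c > 0` and an `n₀` such that for all `n ≥ n₀`, all non-zero integers
`a`, `b`, `d` and all real `G`, `H` with `|a|, |b|, |d| ≤ G` and
`G ^ 2 * H ≤ exp (c * √(log n))`: every randomised linear decision tree (a finite probability space
of trees) on `n` numbers whose queries have at most four non-zero coefficients, or at most five and
then integers of absolute value at most `H`, and which decides with probability at least `2 / 3` on
every strictly increasing sequence of `n` integers whether three different members satisfy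
`a x + b y + d z = 0`, makes at least `n * exp (c * √(log n))` queries in expectation on some
strictly increasing sequence without such members. -/
theorem result : ∃ c : ℝ, 0 < c ∧ ∃ n₀ : ℕ, ∀ n ≥ n₀, ∀ a b d : ℤ, a ≠ 0 → b ≠ 0 → d ≠ 0 →
    ∀ G H : ℝ, |(a : ℝ)| ≤ G → |(b : ℝ)| ≤ G → |(d : ℝ)| ≤ G →
    G ^ 2 * H ≤ Real.exp (c * √(Real.log n)) →
    ∀ (Ω : Type) [Fintype Ω] (p : Ω → ℝ) (t : Ω → Pool.Agent.H692.FL.Tree (Fin n)),
    (∀ ω, 0 ≤ p ω) → ∑ ω, p ω = 1 → (∀ ω, (t ω).FiveTerm H) →
    (∀ x : Fin n → ℤ, StrictMono x → 2 / 3 ≤ ∑ ω, p ω *
      (if ((t ω).run (fun i => (x i : ℝ)) = true ↔ Solvable a b d x) then 1 else 0)) →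
    ∃ x : Fin n → ℤ, StrictMono x ∧ ¬ Solvable a b d x ∧
      n * Real.exp (c * √(Real.log n)) ≤
        ∑ ω, p ω * ((t ω).cost (fun i => (x i : ℝ)) : ℝ) := by
  obtain ⟨n₀, h₀⟩ := equation
  refine ⟨1 / 400, by norm_num, n₀,
    fun n hn a b d ha hb hd G H hGa hGb hGd hGH Ω _ p t hp hp1 hs hcor => ?_⟩
  have hc : 1 / 400 * √(Real.log n) = √(Real.log n) / 400 := by ring
  rw [hc] at hGH ⊢
  obtain ⟨α, h0, h1, h2⟩ : ∃ α : ZMod 3 → ℤ, α 0 = a ∧ α 1 = b ∧ α 2 = d := by
    have z10 : (1 : ZMod 3) ≠ 0 := by decide
    have z20 : (2 : ZMod 3) ≠ 0 := by decide
    have z21 : (2 : ZMod 3) ≠ 1 := by decide
    exact ⟨fun c => if c = 0 then a else if c = 1 then b else d, by simp, by simp [z10],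
      by simp [z20, z21]⟩
  have all : ∀ c : ZMod 3, c = 0 ∨ c = 1 ∨ c = 2 := by decide
  have hS : ∀ x : Fin n → ℤ, SolD α x ↔ Solvable a b d x := by
    intro x
    rw [SolD, Solvable, h0, h1, h2]
  obtain ⟨x, hx1, hx2, hx3⟩ := h₀ n hn α (by
    intro c
    rcases all c with rfl | rfl | rfl
    · rw [h0]; exact ha
    · rw [h1]; exact hb
    · rw [h2]; exact hd) G H (by
    intro c
    rcases all c with rfl | rfl | rfl
    · rw [h0]; exact hGa
    · rw [h1]; exact hGb
    · rw [h2]; exact hGd) (by
    have := Real.exp_pos (√(Real.log n) / 400)
    linarith) Ω p t hp hp1 hs (fun x hx _ => by
    refine (hcor x hx).trans (le_of_eq (Finset.sum_congr rfl fun ω _ => ?_))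
    congr 1
    refine if_congr ?_ rfl rfl
    rw [hS])
  refine ⟨x, hx1, fun h => hx2 ?_, hx3⟩
  obtain ⟨i, j, k, k1, -, -, k4⟩ := (hS x).2 h
  exact ⟨i, j, k, fun h' => k1 h'.1, k4⟩

end Pool.Agent.Results.MP_8f87b2_lc.FiveTermTrees
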