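import Mathlib
import Pool.Agent.H692.RB.Final
import Pool.Agent.H692.RB.IntSum

/-!
# 3SUM with real numbers or integers: randomized decision trees with few rounds

Have three of the numbers of a list of different real numbers the sum zero? How many tests does a
randomized algorithm need to find out, if the tests are made in `r` rounds? (The tests of one round are
made simultaneously, so they may depend on the outcomes of the previous rounds, but not on each
other.) More generally, the numbers are divided into `K + 1` parts, and the question is whether a
linear form with one number from each part and given nonzero coefficients vanishes.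

The definitions of the trees are in `Pool/Agent/H692/KS/Model.lean`, for a continuous family `pot` of
special inputs with parameters in a space `P`:

* `Shallow pot f`: the function `f` of the input (with values in the integers) is locally constant
  near `pot x` for a dense set of parameters `x`;
* `Regular pot f`: the real function `f` of the input is, for generic (a comeagre set of) parameters
  `x`, differentiable at `pot x`, with a value or a derivative which is not zero;
* `RTree pot β`: decision trees with outputs in `β`; a node asks for the value of a shallow function
  (`free`), or it is a `round`, which asks at the same time for the signs (negative, zero, positive)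
  of any number of regular functions (tests). The trees may be infinite, but all branches are finite;
* `run`, `rounds`, `tests`: the output and the numbers of the rounds and of the tests (of all rounds
  together) on the path of the computation. Nodes `free` are not counted, and there may be any number
  of them.

A randomized tree is a finite family `t ρ` of trees with probabilities `p ρ`; `prob p Q` is the
probability of `Q` (`Pool/Agent/H692/RT/Main.lean`). In `KS/Label.lean` and `KS/Step.lean`: `Var k n`
(the variables: `k` parts with `n` numbers each), `Tup k n` (one variable of each part), `val c w s`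
(the value of the linear form with the coefficients `c` for the tuple `s`). In `KS/Final.lean`:
`pot c y`, the input for which all numbers of the part `p` are equal, with
`c p * w (p, i) = y p - m`, `m` the mean of the `y q`; all the linear forms vanish for it. In
`RT/Final.lean`: `c111 = (1, 1, 1)`, and `IsSol w a b c` (three different places `a`, `b`, `c` with
`w a + w b + w c = 0`). In `RR/Final.lean`: `Solves3` and `SolvesK` (the randomized tree finds out
whether there is a solution, if there is at most one). In `RB/Final.lean`: `Bound`.

All analytic functions which are not zero of the second order for all these special inputs are regular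
(part 5), for example all nonzero affine functions of any number of variables. Free are for example
the comparisons of numbers of different parts and all binary digits of the numbers.

Result: a randomized tree with at most `r` rounds for lists of `3 n` different real numbers which
gives the correct answer with probability `(1 + γ) / 2` makes for some list without solution on
average at least `T` tests with `87 (6 T) ^ r ≥ (γ n) ^ (r + 2)`, even if there is at most one
solution. So `T ≥ c n ^ (1 + 2 / r)`, where `c > 0` depends only on `γ`, and `n (log n) ^ a` tests
suffice only if the number of rounds is at least `(2 log n) / ((a + C) log log n)`. For sums with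
`K + 1` summands the exponent is `1 + K / r`. Without a bound for the number of rounds
`O (n (log n) ^ 2)` linear tests suffice (Kane, Lovett and Moran). For two rounds the dependence on
`γ` is better (parts 3, 4).

Part 6 is the same bound for lists of `3 n` different integers (of unbounded size). Here the trees
are `ATree` (`RB/Int.lean`): in a round the signs of any number of affine functions of the numbers
with real coefficients are determined simultaneously, `rounds` and `tests` count the rounds and the
tests on the path, and there are no free nodes. `SolZ w a b c` and `SolvesZ` (`RB/IntSum.lean`) are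
as `IsSol` and `Solves3`, for integers.

Proof. Near a generic special input all shallow functions are constant, and the regular functions have
a constant sign or the sign of their derivative in the direction `u` of the deviation; so there remain
linear tests for `u` (`core`). An assignment `M` gives to each variable `j` of the last part one
variable of each other part; there are `(n ^ K) ^ n` assignments. Let `u M` be the input with generic
values in the first `K` parts and the values in the last part for which the forms of the tuples of `M`
vanish, up to a very small positive change whose size decreases very fast with `j`. If the value of the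
variable `j` is changed so that its form vanishes (or almost vanishes) then the outcome of a test `L`
changes only if `L` is a combination of the forms of the tuples of `M`, in which `j` is the first
variable of the last part (`lead_of_diff`). So for the correct answer such a form has to be among the
tests for `u M`, with probability at least `γ`, for each `j`.

For a deterministic tree let `J` be the set of the `j` for which there is such a form. The forms have a
triangular shape, so they determine `M` inside of `J`, if it is known outside. If `M` is fixed outside
of `J` then the inputs `u M` lie in an affine space of the dimension `d = |J|`, and by the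
Sauer-Shelah lemma (a set of forms all of whose sign patterns occur is independent) there are for each
round at most `∑_{i ≤ d} C(T, i) ≤ (e T / d) ^ d` possible outcomes (`card_pat`, `card_joint`). Hence
there are at most `(e T / d) ^ (d r) (n ^ K) ^ (n - d)` assignments with this `J` (`card_sub`). In the
average over the trees and the assignments `d ≥ γ n`; we choose a tree and the assignments for which
`d ≥ γ n / 4` and the number of the tests is at most `2 T d / (γ n)`. The sum over `J` shows that
`γ / 4 ≤ ∑_{d > γ n / 4} C(n, d) ((2 e T / (γ n)) ^ r / n ^ K) ^ d` (`bounded`).

For integers: the linear tests for `u` have the same outcomes for a rational input near `u M`, with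
the same form vanishing, and for a large multiple of it, which is integral, the affine tests have the
outcomes of their linear parts (`int_point`, `core_int`).
-/

set_option autoImplicit false

namespace Pool.Agent.Results.MP_8f87b2_lc.RandomFewRounds

open Pool.Agent.H692.KS
open Pool.Agent.H692.RT (c111)
open Pool.Agent.H692.RR (Solves3 SolvesK)
open Pool.Agent.H692.RB (Bound ATree SolvesZ)

/-- 1. Let `t ρ` be decision trees with at most `r ≥ 1` rounds, where `ρ` has the probability `p ρ`,
which find out with probability `(1 + γ) / 2` whether there is a solution, with at most `T` tests on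
average if there is none (`Solves3`). Then the inequalities `Bound 2 γ r n T` hold.
2. The same for linear forms with `K + 1` variables from different parts, with nonzero
coefficients `c p`, for inputs in any open set `W` which contains a special input (`SolvesK`), with
`Bound K γ r n T`.
3., 4. Better bounds for two rounds and small `γ`.
5. An analytic function is regular if for some special input its value or its derivative is not
zero.
6. The bounds of part 1 for lists of integers and affine tests. -/
theorem result :
    (∀ r n : ℕ, 1 ≤ r → 1 ≤ n → ∀ (Ω : Type) [Fintype Ω] (p : Ω → ℝ)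
      (t : Ω → RTree (pot c111 : (Fin 3 → ℝ) → Fin 3 × Fin n → ℝ) Bool) (γ T : ℝ), 0 < γ →
      Solves3 p t γ T r → Bound 2 γ r n T) ∧
    (∀ K r n : ℕ, 1 ≤ r → 1 ≤ n → ∀ c : Fin (K + 1) → ℝ, (∀ p, c p ≠ 0) →
      ∀ W : Set (Var (K + 1) n → ℝ), IsOpen W → (∃ y, pot c y ∈ W) →
      ∀ (Ω : Type) [Fintype Ω] (p : Ω → ℝ)
      (t : Ω → RTree (pot c : (Fin (K + 1) → ℝ) → Var (K + 1) n → ℝ) Bool) (γ T : ℝ), 0 < γ →
      SolvesK c W p t γ T r → Bound K γ r n T) ∧
    (∀ n : ℕ, 1 ≤ n → ∀ (Ω : Type) [Fintype Ω] (p : Ω → ℝ)
      (t : Ω → RTree (pot c111 : (Fin 3 → ℝ) → Fin 3 × Fin n → ℝ) Bool) (γ T : ℝ), 0 < γ →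
      Solves3 p t γ T 2 → γ * (n : ℝ) ^ 2 ≤ 8 * T) ∧
    (∀ K n : ℕ, 1 ≤ K → 1 ≤ n → ∀ c : Fin (K + 1) → ℝ, (∀ p, c p ≠ 0) →
      ∀ W : Set (Var (K + 1) n → ℝ), IsOpen W → (∃ y, pot c y ∈ W) →
      ∀ (Ω : Type) [Fintype Ω] (p : Ω → ℝ)
      (t : Ω → RTree (pot c : (Fin (K + 1) → ℝ) → Var (K + 1) n → ℝ) Bool) (γ T : ℝ), 0 < γ →
      SolvesK c W p t γ T 2 → γ * (n : ℝ) ^ (1 + (K : ℝ) / 2) ≤ (3 * K + 2) * T) ∧
    (∀ (K n : ℕ) (c : Fin (K + 1) → ℝ) (f : (Var (K + 1) n → ℝ) → ℝ),
      AnalyticOnNhd ℝ f Set.univ →
      (∃ y, f (pot c y) ≠ 0 ∨ fderiv ℝ f (pot c y) ≠ 0) → Regular (pot c) f) ∧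
    (∀ r n : ℕ, 1 ≤ r → 1 ≤ n → ∀ (Ω : Type) [Fintype Ω] (p : Ω → ℝ)
      (t : Ω → ATree (Fin 3 × Fin n)) (γ T : ℝ), 0 < γ →
      SolvesZ p t γ T r → Bound 2 γ r n T) := by
  have hset : ∀ {n : ℕ} {a b c a' b' c' : Fin 3 × Fin n},
      ({a', b', c'} : Finset (Fin 3 × Fin n)) = {a, b, c} →
      ({a', b', c'} : Set (Fin 3 × Fin n)) = {a, b, c} := by
    intro n a b c a' b' c' h
    have h6 := congrArg (fun s : Finset (Fin 3 × Fin n) => (s : Set (Fin 3 × Fin n))) h
    simpa using h6
  have hinj : ∀ {K n : ℕ} (w : Var (K + 1) n → ℝ), (∀ e : Pr K n, dot (dif e) w ≠ 0) →
      ∀ p, Function.Injective fun i => w (p, i) := by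
    intro K n w hw p i j hij
    by_contra hne
    have h3 := hw ⟨((p, i), (p, j)), by simpa using hne, rfl⟩
    rw [dot_dif] at h3
    exact h3 (sub_eq_zero.2 hij)
  refine ⟨?_, ?_, ?_, ?_, fun K n c f hf h => regular_analytic (pot_analytic c) hf h,
    fun r n hr hn Ω _ p t γ T hγ h => Pool.Agent.H692.RB.solves_z hγ hr hn h⟩
  · rintro r n hr hn Ω _ p t γ T hγ ⟨⟨hp0, hp1⟩, h1, h2⟩
    refine Pool.Agent.H692.RB.three_sum_zero hγ hr hn p hp0 hp1 id t h1 ?_
    rintro w hw ⟨a, b, c, h3, h4⟩
    exact h2 w hw ⟨a, b, c, h3, fun a' b' c' h5 => hset (h4 a' b' c' h5)⟩
  · rintro K r n hr hn c hc W hW ⟨y₀, hy₀⟩ Ω _ p t γ T hγ ⟨⟨hp0, hp1⟩, h1, h2⟩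
    exact Pool.Agent.H692.RB.headline hγ hr hn hc (indep_dif c) (pot_continuous c) (val_pot hc)
      (dif_pot c) hW hy₀ id p hp0 hp1 t (fun w hw h3 h4 => h1 w hw (hinj w h4) h3)
      (fun w hw τ h3 h4 h5 => h2 w hw (hinj w h5) ⟨τ, h3, h4⟩)
  · rintro n hn Ω _ p t γ T hγ ⟨⟨hp0, hp1⟩, h1, h2⟩
    refine Pool.Agent.H692.RT.three_sum_zero hn p hp0 hp1 id t hγ h1 ?_
    rintro w hw ⟨a, b, c, h3, h4⟩
    exact h2 w hw ⟨a, b, c, h3, fun a' b' c' h5 => hset (h4 a' b' c' h5)⟩
  · rintro K n hK hn c hc W hW ⟨y₀, hy₀⟩ Ω _ p t γ T hγ ⟨⟨hp0, hp1⟩, h1, h2⟩
    exact Pool.Agent.H692.RT.rand_headline hK hc (indep_dif c) (pot_continuous c) (val_pot hc)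
      (dif_pot c) hW hy₀ id p hp0 hp1 t hγ hn
      (fun w hw h3 h4 => h1 w hw (hinj w h4) h3)
      (fun w hw τ h3 h4 h5 => h2 w hw (hinj w h5) ⟨τ, h3, h4⟩)

end Pool.Agent.Results.MP_8f87b2_lc.RandomFewRounds
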