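import Pool.Agent.H698.UT.Core

set_option autoImplicit false

/-!
# Integer 3SUM for randomised circuits that compute with unknown inputs

A set `S` of at most `n` integers in `[-W, W]` is given by its bits: for each integer the circuits
read whether it is known to belong to the set, known not to belong to it or unknown.  The gates have
values in an ordered set `D` of states of knowledge and apply arbitrary functions `D → D → D` that
respect the order (more knowledge about the arguments gives more knowledge about the value); `D` is
any partially ordered set in which the elements below a given one form a chain of real numbers.

* If `D` is the flat order with the values `unknown`, `known true` and `known false` then these are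
  the hazard-free (Kleene, three-valued) circuits with arbitrary binary gates, each evaluated by its
  most precise extension; negations are allowed.
* If `D` is the flat order over an arbitrary set `A` (numbers, words, ...) the gates may apply
  arbitrary functions `A → A → A`, for example arithmetic and bitwise operations, as soon as the
  arguments are known.
* If `D = ℝ` then these are the monotone real circuits.

For all these models at once: random circuits with two-sided error `1/3` need `n ^ (2 - o(1))` gates
on average to raise the alarm if the elements of a set are known to be present (and nothing is known
about the other integers) and three of them have the sum zero, and not to raise it on the completely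
known sets without solution.  For `W = n` the exponent `2` is best possible for every such `D` with
two comparable elements, and without randomness.

Proof. Feed the circuit with the sets whose absent elements are declared unknown. All gate values are
then below the value for the set of all integers, so that they lie in a chain, in which the gate is
simulated by one monotone real gate; no gates are lost. Then the lower bound for monotone real
circuits of `Pool.Graph.R_pool_sql_team_seeded_1e53cb71.Helper54K9.Mono` applies.
-/

namespace Pool.Agent.Results.MP_8f87b2_lc.UnknownInputCircuits

open Pool.Agent.H698.HF Pool.Agent.H698.UT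

/-- (1) Let `1 ≤ n ≤ W` and let `D` be a tree-like order of states of knowledge. If a random circuit
over `D` solves 3SUM for the sets of at most `n` integers in `[-W, W]` (`Solves`) then
`n ^ 2 ≤ 5 * 2 ^ (92 √(log₂ n)) * (T + 3)`, where `T` is the expected number of its gates. (2) For
every order `D` with two elements `a < b` and every `W` there is a deterministic circuit over `D` with
at most `5 (2 W + 1) ^ 2` gates that solves 3SUM for all sets of integers in `[-W, W]`. (3) The real
numbers and all flat orders are tree-like, and the most precise extension of a function to a flat
order is nondecreasing, so that it is allowed at the gates. -/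
theorem result :
    (∀ n W : ℕ, 1 ≤ n → n ≤ W → ∀ (D : Type) [PartialOrder D], TreeLike D →
      ∀ (Γ : Type) [Fintype Γ] (w : Γ → ℝ), (∀ γ, 0 ≤ w γ) → ∑ γ, w γ = 1 →
      ∀ l : Γ → List (Know (Num W) → D), (∀ γ, Circ (l γ)) → Solves n W w l →
      (n : ℝ) ^ 2 ≤ 5 * 2 ^ (92 * √(Real.logb 2 n)) * (∑ γ, w γ * (l γ).length + 3)) ∧
    (∀ (W : ℕ) (D : Type) [PartialOrder D] (a b : D), a < b →
      ∃ l : List (Know (Num W) → D), Circ l ∧ l.length ≤ 5 * (2 * W + 1) ^ 2 ∧
      ∀ n : ℕ, Solves n W (fun _ : Unit => (1 : ℝ)) (fun _ => l)) ∧
    TreeLike ℝ ∧ ∀ A : Type, TreeLike (Flat A) ∧ (Nonempty A → ∀ (f : A → A → A)
      (x x' y y' : Flat A), x ≤ x' → y ≤ y' → Flat.ext f x y ≤ Flat.ext f x' y') :=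
  ⟨fun n W hn hnW D _ hD Γ _ w hw hw1 l hl hs => lower n W hn hnW hD w hw hw1 l hl hs,
    fun W D _ a b hab => upper W hab, treeLike_real,
    fun A => ⟨Flat.treeLike, fun hA f x x' y y' hx hy => Flat.ext_mono' f x x' y y' hx hy⟩⟩

end Pool.Agent.Results.MP_8f87b2_lc.UnknownInputCircuits
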